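import Pool.Agent.H428.V.Bridge
import Pool.Graph.R_pool_sql_team_seeded_3997aac3.Q45.TG.Rat

/-!
# The abelian varieties over a function field `M` that become products of superelliptic Jacobians over a
# field `L` which is a `p`-extension of a rational function field

Let `p` be a prime. We consider superelliptic Jacobians `J` over a field `L` of the following type
(`IsAdmissible`): `J` is the Jacobian of `w ^ q = F(x, s)`, `q = p ^ e`, where `s` is in `L` and `F` is a
polynomial over a field `k ⊆ L` which contains a primitive root of unity of order `q` (for example a finite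
field), `L` is a finite Galois extension of `K = k(s)` of degree a power of `p`, and

* `F(x, s)` is monic in `x` of degree prime to `p`, irreducible, with `∂F / ∂x ≠ 0`; the affine curve
  `C : F = 0` is smooth, the units of its coordinate ring are constants, and its class group has no
  element of order `p`;
* `L` is ramified over the affine `s`-line only over places `b` such that `F(x, s)` modulo `b` is
  irreducible and separable.

(`AffineLine`) The conditions on `F` hold for all `F = g(x) + s` with `g` monic of degree prime to `p`,
`g' ≠ 0`; and `F` modulo `b` is irreducible and separable if `b(-g(x))` is over `k`.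

(`General`) Let `M` be ANY subfield of `L` such that `L` is a finite Galois extension of `M`, let `S` be a
Dedekind domain with field of fractions `M` such that the integral closure `A` of `k[s]` in `L` is also
the integral closure of `S`, and let `X` be any abelian variety over `M` with homomorphisms
`X → ∏ J_i → X` over `L` with composite `n`, where the `J_i` are of the type above (with the same `p`, `L`
and `A`; `q`, `k`, `s` and `F` may depend on `i`). Then `n [L : M]` kills the `p`-primary part of the
Tate-Shafarevich group of `X` over `M`, even if the local conditions are imposed at the maximal ideals of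
`S` only, and `n [L : M] X(M)` is contained in `p ^ m X(M)` for all `m`. If `p` does not divide `n`, for
example if `X` becomes isomorphic to the product over `L`, then the `p`-primary part of the
Tate-Shafarevich group is zero and multiplication by `p` is bijective on `X(M)`.

If `k` is finite then it follows, for every `n ≠ 0`, that `X(M)` is finite, the whole group `Ш(X / M)` is
finite and the formula of Birch and Swinnerton-Dyer holds for `X` over `M` (Mordell-Weil, Tate, Milne,
Kato-Trihan).

The case `M = L`, `X = J` is the theorem `GaloisPExtensions` of the library, from which we start. New are the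
forms. Examples:

* `M = k₀(s)`, `L = K = k(s)`, `k` a finite Galois extension of `k₀` which contains the roots of unity:
  all the forms over `k₀(s)` of the products of Jacobians of curves `w ^ q = F(x, s)` over `k(s)`. The
  field `k₀` does not have to contain roots of unity, and the degree `[k : k₀]` is arbitrary (it may be
  divisible by `p`).
* `M = k(s)`: the abelian varieties over `k(s)` which split over a `p`-extension `L`, as the twists of
  `J ^ r` by representations `Gal(L / K) → GL_r(ℤ)`, or by cocycles with values in the units of the ring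
  of matrices over `ℤ[ζ_q]`; their factors, as the Weil restrictions of the `J_i` from the fields between
  `K` and `L`, and the kernels of the traces.
* `M = k₀(t)`, where `t` is a polynomial in `s` such that `k(s)` is Galois over `k₀(t)`, for example
  `t = s ^ m`, or `t = s ^ c - s` in characteristic `c`; here the `J_i` may be the conjugates of `J`, given
  by `F(x, σ s)`.

The group functor `X` is given by the groups `X(Ω)` for the separably closed extension fields `Ω` of `M`;
`X(M)` is the group of the points over the separable closure which are fixed by the Galois group. The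
group `J(Ω)` is the Picard group of the affine curve `w ^ q = F(x, s)`.
-/

set_option autoImplicit false
set_option linter.all false

open Polynomial IsDedekindDomain
open scoped Classical

namespace Pool.Agent.Results.MP_72e2e6_nt.FormsOverPExtensions

open Pool.Agent.Y160.SL (Jac jm ShaTriv)
open Pool.Agent.H428.V.B (GroupFunctor IsFactor jacobians NoPart NoPartUpTo)

/-- The partial derivative of `F(x, s)` with respect to `s`: the derivative is applied to the
coefficients. -/
noncomputable def derivS {k : Type} [Field k] (F : k[X][X]) : k[X][X] :=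
  F.sum fun i a => C (derivative a) * X ^ i

/-- The conditions on the curve `F(x, s) = 0`: the polynomial `F` is monic in `x` of degree prime to
`p`, irreducible, with `∂F / ∂x ≠ 0`; the affine curve is smooth; the coordinate ring `k[s, x] / (F)` is a
Dedekind domain in which the units are constants, and without ideal classes of order `p`. -/
structure IsBranchCurve {k : Type} [Field k] (p : ℕ) (F : k[X][X]) : Prop where
  monic : F.Monic
  coprime : p.Coprime F.natDegree
  irreducible : Irreducible F
  deriv_ne : derivative F ≠ 0
  smooth : ∃ a b c : k[X][X], a * F + b * derivative F + c * derivS F = 1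
  dedekind : IsDedekindDomain (AdjoinRoot F)
  units : ∀ u : (AdjoinRoot F)ˣ, ∃ c : k, (u : AdjoinRoot F) = AdjoinRoot.of F (C c)
  noTorsion : ∀ J : Ideal (AdjoinRoot F), (J ^ p).IsPrincipal → J.IsPrincipal

/-- The polynomial `F(x, s)` modulo `b(s)`. -/
noncomputable def modF {k : Type} [Field k] (F : k[X][X]) (b : k[X]) :
    (k[X] ⧸ Ideal.span {b})[X] := F.map (Ideal.Quotient.mk (Ideal.span {b}))

/-- The extension `A` of the ring `k[s]` is ramified only over monic irreducible polynomials `b` such
that `F` modulo `b` is irreducible and separable. -/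
def AdmissibleRamification {k : Type} [Field k] (F : k[X][X]) (A : Type) [CommRing A]
    [Algebra k[X] A] : Prop :=
  ∀ (v : HeightOneSpectrum A) (b : k[X]), b.Monic → Irreducible b →
    algebraMap k[X] A b ∈ v.asIdeal ^ 2 → Irreducible (modF F b) ∧ (modF F b).Separable

/-- The curve `w ^ q = f(x)` over the field `L`, the field of fractions of `A`: there are a field `k` with
a primitive `q`-th root of unity `ζ`, a rational function field `K = k(s)`, which is the field of fractions of
`k[X]` (the variable `X` is `s`), an embedding of `K` in `L` such that `L` is a finite Galois extension of `K`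
of degree a power of `p` and `A` the integral closure of `k[s]`, and a polynomial `F` as above such that
`f = F(x, s)` and the ramification of `L` is admissible. Here `q > 1` is a power of `p`. -/
def IsAdmissible (p : ℕ) (A L : Type) [CommRing A] [Field L] [Algebra A L] (q : ℕ) (f : L[X]) :
    Prop :=
  ∃ (k K : Type) (_ : Field k) (_ : Field K) (_ : Algebra k[X] K) (_ : IsFractionRing k[X] K)
    (_ : Algebra K L) (_ : FiniteDimensional K L) (_ : IsGalois K L) (_ : Algebra k[X] L)
    (_ : IsScalarTower k[X] K L) (_ : Algebra k[X] A) (_ : IsScalarTower k[X] A L)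
    (_ : IsIntegralClosure A k[X] L) (b e : ℕ) (ζ : k) (F : k[X][X]),
    Module.finrank K L = p ^ b ∧ e ≠ 0 ∧ q = p ^ e ∧ IsPrimitiveRoot ζ q ∧ IsBranchCurve p F ∧
      AdmissibleRamification F A ∧ f = F.map (algebraMap k[X] L)

/-- **Forms.** -/
def General : Prop :=
  ∀ (p : ℕ), p.Prime → ∀ (M S L A : Type) [Field M] [CommRing S] [IsDedekindDomain S] [Algebra S M]
    [IsFractionRing S M] [Field L] [CommRing A] [IsDedekindDomain A] [Algebra A L]
    [IsFractionRing A L] [Algebra M L] [FiniteDimensional M L] [IsGalois M L] [Algebra S A]
    [Algebra S L] [IsScalarTower S M L] [IsScalarTower S A L] [Algebra.IsIntegral S A]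
    (I : Type) (q : I → ℕ) (f : I → L[X]), (∀ i, IsAdmissible p A L (q i) (f i)) →
    ∀ (X : GroupFunctor M) (n : ℕ), IsFactor X (jacobians q f) n →
      NoPartUpTo X S p (n * Module.finrank M L) ∧ (p.Coprime n → NoPart X S p)

/-- The polynomial `g(x) + s`. -/
noncomputable def lineF {k : Type} [Field k] (g : k[X]) : k[X][X] := g.map C + C X

/-- **The curves `w ^ q = g(x) + s`** are admissible over the Galois extensions `L` of `K = k(s)` of
degree a power of `p` which are ramified, over the affine line, only over `b` such that `b(-g(x))` is
irreducible and separable. -/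
def AffineLine : Prop :=
  ∀ (p e : ℕ), p.Prime → e ≠ 0 → ∀ (k : Type) [Field k] (ζ : k), IsPrimitiveRoot ζ (p ^ e) →
    ∀ (g : k[X]), g.Monic → p.Coprime g.natDegree → derivative g ≠ 0 →
    ∀ (K L : Type) [Field K] [Algebra k[X] K] [IsFractionRing k[X] K] [Field L] [Algebra K L]
      [FiniteDimensional K L] [IsGalois K L] [Algebra k[X] L] [IsScalarTower k[X] K L] (b : ℕ),
      Module.finrank K L = p ^ b → ∀ (A : Type) [CommRing A] [Algebra A L] [Algebra k[X] A]
        [IsScalarTower k[X] A L] [IsIntegralClosure A k[X] L],
        (∀ (v : HeightOneSpectrum A) (b : k[X]), b.Monic → Irreducible b →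
          algebraMap k[X] A b ∈ v.asIdeal ^ 2 →
            Irreducible (b.comp (-g)) ∧ (b.comp (-g)).Separable) →
        IsAdmissible p A L (p ^ e) ((lineF g).map (algebraMap k[X] L))

theorem ram_of {k : Type} [Field k] {F : k[X][X]} {A : Type} [CommRing A] [Algebra k[X] A]
    (h : AdmissibleRamification F A) : Pool.Agent.Q45.TG.Ram F A := by
  intro v b hb hbv
  have hl : b.leadingCoeff ≠ 0 := leadingCoeff_ne_zero.2 hb.ne_zero
  have hu : IsUnit (C (b.leadingCoeff⁻¹) : k[X]) := isUnit_C.2 (isUnit_iff_ne_zero.2 (inv_ne_zero hl))
  have hm : (b * C b.leadingCoeff⁻¹).Monic := monic_mul_leadingCoeff_inv hb.ne_zero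
  have hi : Irreducible (b * C b.leadingCoeff⁻¹) := (irreducible_mul_isUnit hu).2 hb
  have h1 := h v _ hm hi (by
    rw [map_mul]
    exact Ideal.mul_mem_right _ _ hbv)
  have hs : Ideal.span {b * C b.leadingCoeff⁻¹} = Ideal.span {b} :=
    Ideal.span_singleton_mul_right_unit hu b
  have key : ∀ I : Ideal k[X], I = Ideal.span {b} →
      (Irreducible (F.map (Ideal.Quotient.mk I)) ∧ (F.map (Ideal.Quotient.mk I)).Separable) →
      (Irreducible (F.map (Ideal.Quotient.mk (Ideal.span {b}))) ∧
        (F.map (Ideal.Quotient.mk (Ideal.span {b}))).Separable) := by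
    rintro I rfl h
    exact h
  exact key _ hs h1

theorem pos_of {p n : ℕ} (hp : p.Prime) (h : p.Coprime n) : 0 < n := by
  rw [Nat.pos_iff_ne_zero]
  rintro rfl
  rw [Nat.coprime_zero_right] at h
  exact hp.ne_one h

/-- The theorem `GaloisPExtensions` of the library. -/
theorem base {p : ℕ} (hp : p.Prime) {L A : Type} [Field L] [CommRing A] [IsDedekindDomain A]
    [Algebra A L] [IsFractionRing A L] {q : ℕ} {f : L[X]} (h : IsAdmissible p A L q f) :
    (∃ ζ : L, Pool.Agent.Y160.SQ.Good q ζ f) ∧ ShaTriv p q A f ∧
      ∀ P : Jac q f L, ∃! Q : Jac q f L, p • Q = P := by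
  obtain ⟨k, K, i1, i2, i3, i4, i5, i6, i7, i8, i9, i10, i11, i12, b, e, ζ, F, hb, he, hq, hζ, hF, hA,
    rfl⟩ := h
  have hζp := Pool.Agent.Q45.TL.zeta_p hp hq he hζ
  obtain ⟨m, s, hT⟩ := Pool.Agent.Q45.TG.tower_of_gal hp hζp b K L hb
    ⟨0, _, Pool.Agent.Q45.TG.tower_base inferInstance⟩
  obtain ⟨h1, h2⟩ := Pool.Agent.Q45.TG.sha_tower hp hq he hζ hF.monic hF.irreducible
    (pos_of hp hF.coprime) hF.coprime hF.deriv_ne hF.smooth
    ⟨hF.dedekind, hF.units, hF.noTorsion⟩ hT (A := A) (ram_of hA)
  have hirr : Irreducible (Pool.Agent.Q45.TG.fF F L) :=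
    Pool.Agent.Q45.TG.irr_tower hp hζp hF.monic hF.irreducible (pos_of hp hF.coprime) hF.coprime hT
  have hsep : (Pool.Agent.Q45.TG.fF F L).Separable :=
    Pool.Agent.Q45.TG.sep_fF (hT.fs hp hζp).inj hirr hF.deriv_ne
  exact ⟨⟨_, Pool.Agent.Q45.TG.good hp hq he hζ hF.monic hF.coprime hsep⟩,
    Pool.Agent.Y160.SL.shaTriv_of h1, h2⟩

/-- **Forms of products of superelliptic Jacobians.** -/
theorem result : General ∧ AffineLine := by
  refine ⟨?_, ?_⟩
  · intro p hp M S L A _ _ _ _ _ _ _ _ _ _ _ _ _ _ _ _ _ _ I q f h X n hX
    exact Pool.Agent.H428.V.B.transfer hp (fun i => (base hp (h i)).1) (fun i => (base hp (h i)).2.1)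
      (fun i => (base hp (h i)).2.2) X n hX
  · intro p e hp he k _ ζ hζ g hg hcop hd K L _ _ _ _ _ _ _ _ _ b hb A _ _ _ _ _ hA
    have hpos := pos_of hp hcop
    have hB := Pool.Agent.Q45.TG.gs_isBr (p := p) g
    have h1 : (lineF g).natDegree = g.natDegree := Pool.Agent.Q45.TG.gs_natDegree hg hpos
    refine ⟨k, K, inferInstance, inferInstance, inferInstance, inferInstance, inferInstance,
      inferInstance, inferInstance, inferInstance, inferInstance, inferInstance, inferInstance,
      inferInstance, b, e, ζ, lineF g, hb, he, rfl, hζ,
      ⟨Pool.Agent.Q45.TG.gs_monic hg hpos, by rw [h1]; exact hcop,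
        Pool.Agent.Q45.TG.gs_irr hg hpos, Pool.Agent.Q45.TG.gs_der hd,
        Pool.Agent.Q45.TG.gs_smooth g, hB.ded, hB.units, hB.cls⟩, ?_, rfl⟩
    intro v b hbm hbi hbv
    obtain ⟨h2, h3⟩ := hA v b hbm hbi hbv
    exact ⟨Pool.Agent.Q45.TG.gs_red hg hpos hbi h2, Pool.Agent.Q45.TG.gs_sep hbi h3⟩

end Pool.Agent.Results.MP_72e2e6_nt.FormsOverPExtensions
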