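import Pool.Agent.H859.AL.Seq
import Pool.Agent.H428.W.Cmp

/-!
# Finiteness of the Tate-Shafarevich groups of all the forms and isogeny factors of 100 percent of the
# hyperelliptic Jacobians, after twists of slowly growing degree, over the layers of a given tower

Let `k` be any finite field of odd characteristic, `K = k(t)`, `g_1, ..., g_r ≥ 1`, and `L_0 ⊆ L_1 ⊆ ...` ANY
tower of finite Galois extensions of `K` whose degrees are powers of two (with any constants and any
ramification; for example all `L_i` are one field `L`). Let `m ≠ 0` be a polynomial which is divisible by all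
the primes of `k[t]` which are ramified in the tower, and `f₁_j` a monic polynomial of degree `2 g_j + 1` over
`k[t]` which is irreducible modulo these primes and whose discriminant is not divisible by the square of a
prime divisor of `m`. Let `F_N` be the set of the `r`-tuples of polynomials
`f_j(x) = x ^ (2 g_j + 1) + ∑ f_(j,i) x ^ i` over `k[t]` with `deg f_(j,i) ≤ 2 N (2 g_j + 1 - i)` for which, for
all `j`,

* the polynomial over `k` with the coefficients of `t ^ (2 N (2 g_j + 1 - i))` in the `f_(j,i)` is irreducible
  (good and irreducible reduction at infinity);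
* the discriminant of `f_j` is squarefree;
* `f_j` is congruent to `f₁_j` modulo `m ^ 2`.

This is a family of positive density among all the tuples of monic polynomials of the given height. For
squarefree polynomials `D_j` let `J_j` be the Jacobian of the curve `y ^ 2 = D_j ^ (2 g_j + 1) f_j(x / D_j)`,
the quadratic twist by `D_j` of the Jacobian of `y ^ 2 = f_j(x)`.

Theorem. For EVERY sequence `w(N)` of natural numbers which tends to infinity there is a sequence `v(N)`
which tends to infinity such that for 100 percent of the tuples in `F_N` (the proportion tends to `1` as `N`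
tends to infinity) there are squarefree polynomials `D_j` of degree at most `w(N)` such that for ALL the
fields `E` between `K` and `L_(v(N))`:

* multiplication by two is bijective on `J_j(E)`, and all classes of 2-power order in the Tate-Shafarevich
  group of `J_j` over `E` are zero, even without conditions at the places over infinity;
* (`HoldsForForms`) for ANY field `B` over which `E` is finite and Galois, any Dedekind ring `S` with the field
  of fractions `B` such that the integral closure `R` of `k[t]` in `E` is integral over `S`, and ANY abelian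
  variety `A` over `B` for which there are homomorphisms `A → P → A` over `E` with composite `n`, where `P` is
  a product of some of the `J_j` with repetitions: `n [E : B] A(B)` is contained in `2 ^ e A(B)` for all `e`,
  and `n [E : B]` kills the 2-primary part of the Tate-Shafarevich group of `A` over `B`; if `n` is odd, for
  instance if `A` is a form over `B` of `P`, then multiplication by two is bijective on `A(B)` and this
  2-primary part is zero, whatever the degree `[E : B]` is.

By the theorem of Tate, Milne, Kato and Trihan (in the list of the known results of the problem) the whole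
Tate-Shafarevich groups of all these `A` with `n ≠ 0` over `B` are finite, and (with `B = E`) also over `E`:
this is Q1 for `A` over `B` and the Galois extension `E` of `B`, where the fields `E` are given first, for
example for all the twists of the products of the `J_j` by cocycles of `Gal(E/B)`, for the Weil
restrictions, and for all abelian varieties over `k₀(s)` which become isogenous to a factor of a product of
the `J_j` over `k(t)`, where `s` is a polynomial over the subfield `k₀` of `k` such that `k(t)` is Galois over
`k₀(s)`. Also `A(B)` is finite, and the `L`-function of `A` over `B` does not vanish at the centre. The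
heights and the conductors of the curves in `F_N` tend to infinity, but the twists can be made by
polynomials of degree at most `log log N`, for instance.

Here `J(E)` is given as the Picard group of the affine coordinate ring `E[x, y] / (y ^ 2 - F)` (the curve
has one point at infinity, which is rational), and the Tate-Shafarevich group is defined by continuous
cocycles on the absolute Galois group with values in `J` of the separable closure. An abelian variety `A`
over `B` is given by its points over the separably closed extension fields of `B` (`GroupFunctor`).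

What was known. For one given abelian variety of this kind there are infinitely many good quadratic twists,
whose degree depends on the abelian variety (moments of `L`-functions; Mazur and Rubin). The library and
this run have positive proportions, an unspecified constant, of curves without a twist (project TW;
`MP_89bcae_ag.AllTowersOverGivenCover`). The exponential bound is the one of
`MP_60d5ce_nt.SmallTwistOfAlmostAll`, by the same author in this run; over number fields, for elliptic
curves, see `MP_7cad78_nt.FiniteSetsOfTwists` (helper458, another method). The forms of single curves with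
special geometric properties are in `FormsOverPExtensions` on this page (helper428); the transfer to the
forms by restriction and corestriction is from there (`Pool/Agent/H428/V`). An earlier version of this file
had one field `L`, one curve, and no forms.

Proof. Self-adjoint operators on self-dual lattices of rank `2 g + 1` over the line which for all `Q ∈ T`
avoid the non-distinguished operators over the residue field whose characteristic polynomial is the product
of a linear and an irreducible factor: these are at least the share `1 / (32 g)` of all the self-adjoint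
operators. There are infinitely many primes which split completely in each layer; for a fixed number of them
the degree of their product is at most `w(N)` for large `N`. Then a diagonal argument, and the transfer.

Helper files: `Pool/Agent/H859/AL/` (helper859, new); `Pool/Agent/H859/TWC/`, `Pool/Agent/H859/SC/`
(helper859), mostly after the files of the projects PJ (helper352), JM, TW (helper874) with parts by many
helpers of the run 63374d34; classification of quadratic forms: helper747; Gram matrices: helper644;
`Pool/Agent/H428/V`, `W`: helper428.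
-/

set_option autoImplicit false
set_option linter.all false

namespace Pool.Agent.Results.MP_72e2e6_nt.HundredPercentAfterTwist

open Polynomial Filter IsDedekindDomain Topology
open Pool.Agent.N874.Jac (UniquelyTwoDivisible ShaTwoTrivial)
open Pool.Agent.H428.V.B (GroupFunctor IsFactor jacobians NoPart NoPartUpTo)
open scoped Classical

/-- The monic polynomials of degree `2 g + 1` over `k[t]` and height at most `2 N`. -/
def Polynomials (k : Type) [Field k] (g N : ℕ) : Set k[X][X] :=
  {f | f.Monic ∧ f.natDegree = 2 * g + 1 ∧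
    ∀ j ≤ 2 * g, (f.coeff j).natDegree ≤ 2 * N * (2 * g + 1 - j)}

/-- The reduction at infinity of `f`. -/
noncomputable def atInfinity {k : Type} [Field k] (g N : ℕ) (f : k[X][X]) : k[X] :=
  X ^ (2 * g + 1) + ∑ j ∈ Finset.range (2 * g + 1),
    C ((f.coeff j).coeff (2 * N * (2 * g + 1 - j))) * X ^ j

/-- The curves `y ^ 2 = f(x)` over `k(t)`: `f` is irreducible at infinity, with squarefree discriminant, congruent
to `f₁` modulo `m ^ 2`. -/
def Family {k : Type} [Field k] (g : ℕ) (m : k[X]) (f₁ : k[X][X]) (N : ℕ) : Set k[X][X] :=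
  {f ∈ Polynomials k g N | Irreducible (atInfinity g N f) ∧ Squarefree f.discr ∧
    ∀ j, m ^ 2 ∣ f.coeff j - f₁.coeff j}

/-- All `r`-tuples of monic polynomials of the degrees `2 g_j + 1` and height at most `2 N`. -/
def AllTuples (k : Type) [Field k] {r : ℕ} (g : Fin r → ℕ) (N : ℕ) : Set (Fin r → k[X][X]) :=
  {f | ∀ j, f j ∈ Polynomials k (g j) N}

/-- The family `F_N` of `r`-tuples of curves. -/
def Tuples {k : Type} [Field k] {r : ℕ} (g : Fin r → ℕ) (m : k[X]) (f₁ : Fin r → k[X][X]) (N : ℕ) :
    Set (Fin r → k[X][X]) :=
  {f | ∀ j, f j ∈ Family (g j) m (f₁ j) N}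

/-- Multiplication by two is bijective on `J(E)`, `J` the Jacobian of `y ^ 2 = F(x)`, and every class of
2-power order in `H ^ 1 (E, J)` which is zero over the completions of `E` at all maximal ideals of `R` is
zero. -/
def NoTwoPart (R : Type) {E : Type} [Field E] [CommRing R] [IsDedekindDomain R] [Algebra R E]
    [IsFractionRing R E] (F : E[X]) : Prop :=
  UniquelyTwoDivisible F ∧ ShaTwoTrivial F R

/-- `f` is irreducible modulo `P`. -/
def IrreducibleMod {k : Type} [Field k] (f : k[X][X]) (P : k[X]) : Prop :=
  Irreducible (f.map (Ideal.Quotient.mk (Ideal.span {P})))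

/-- `P` is unramified in the extension `R` of `k[t]`. -/
def Unramified {k : Type} [Field k] (R : Type) [CommRing R] [Algebra k[X] R] (P : k[X]) : Prop :=
  ∀ w : HeightOneSpectrum R, algebraMap k[X] R P ∈ w.asIdeal → algebraMap k[X] R P ∉ w.asIdeal ^ 2

/-- `L_0 ⊆ L_1 ⊆ L_2 ⊆ ...` is a tower of finite Galois extensions of `K` of 2-power degrees. -/
structure IsTower (K Ω : Type) [Field K] [Field Ω] [Algebra K Ω] (L : ℕ → IntermediateField K Ω) :
    Prop where
  tower : Monotone L
  finite : ∀ i, FiniteDimensional K (L i)
  galois : ∀ i, IsGalois K (L i)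
  degree : ∀ i, ∃ n : ℕ, Module.finrank K (L i) = 2 ^ n

/-- Let `R'` be a Dedekind ring with the field of fractions `E`, and `J_j` the Jacobian of `y ^ 2 = F_j(x)`
over `E`. For ALL the fields `B` (with the Dedekind ring `S`, of which `R'` is an integral extension) such
that `E` is a finite Galois extension of `B`, and ALL the abelian varieties (group functors) `A` over `B`
for which there are homomorphisms `A → P → A` over `E` with composite `n`, where `P` is a product of some
of the `J_j` (with repetitions): all `n [E : B] Q` with `Q` in `A(B)` are divisible by all powers of two in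
`A(B)`, and the 2-primary part of the Tate-Shafarevich group of `A` over `B` is killed by `n [E : B]`. If
`n` is odd then multiplication by two is bijective on `A(B)`, and this 2-primary part is zero. -/
def HoldsForForms (R' : Type) {E : Type} [Field E] [CommRing R'] [IsDedekindDomain R']
    [Algebra R' E] [IsFractionRing R' E] {r : ℕ} (F : Fin r → E[X]) : Prop :=
  ∀ (B S : Type) [Field B] [CommRing S] [IsDedekindDomain S] [Algebra S B] [IsFractionRing S B]
    [Algebra B E] [FiniteDimensional B E] [IsGalois B E] (ι : S →+* R'), ι.IsIntegral →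
    (∀ s, algebraMap B E (algebraMap S B s) = algebraMap R' E (ι s)) →
    ∀ (I : Type) (i : I → Fin r) (A : GroupFunctor B) (n : ℕ),
    IsFactor A (jacobians (fun _ => 2) fun l => F (i l)) n →
      NoPartUpTo A S 2 (n * Module.finrank B E) ∧ (Odd n → NoPart A S 2)

/-- There are squarefree polynomials `D_1, ..., D_r` of degree at most `w` such that for all the fields `E`
between `K = k(t)` and `L` the quadratic twists by `D_j` of the Jacobians of `y ^ 2 = f_j(x)`, the Jacobians
of `y ^ 2 = D_j ^ (2 g_j + 1) f_j(x / D_j)`, have no 2-part over `E`, and the same holds for all their forms.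
Here `R` is the integral closure of `k[t]` in `E`. -/
def HasGoodTwists {k : Type} [Field k] (K : Type) [Field K] [Algebra k[X] K]
    (L : Type) [Field L] [Algebra K L] [Algebra k[X] L] [IsScalarTower k[X] K L]
    (w : ℕ) {r : ℕ} (f : Fin r → k[X][X]) : Prop :=
  ∃ D : Fin r → k[X], (∀ j, Squarefree (D j) ∧ (D j).natDegree ≤ w) ∧
  ∀ (E : IntermediateField K L) (R : Type) [CommRing R] [IsDedekindDomain R] [Algebra R E]
    [IsFractionRing R E] [Algebra k[X] R] [IsScalarTower k[X] R E] [IsIntegralClosure R k[X] E],
    (∀ j : Fin r, NoTwoPart R (((f j).scaleRoots (D j)).map (algebraMap k[X] E))) ∧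
    HoldsForForms R fun j : Fin r => ((f j).scaleRoots (D j)).map (algebraMap k[X] E)

/-- (Used in the proof.) The Jacobian of `y ^ 2 = F(x)` has no 2-part over all the fields `E` between `K = k(t)` and `L`. Here
`R` is the integral closure of `k[t]` in `E`. -/
def NoTwoPartBelow {k : Type} [Field k] (K : Type) [Field K] [Algebra k[X] K]
    (L : Type) [Field L] [Algebra K L] [Algebra k[X] L] [IsScalarTower k[X] K L]
    (F : k[X][X]) : Prop :=
  ∀ (E : IntermediateField K L) (R : Type) [CommRing R] [IsDedekindDomain R] [Algebra R E]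
    [IsFractionRing R E] [Algebra k[X] R] [IsScalarTower k[X] R E] [IsIntegralClosure R k[X] E],
    NoTwoPart R (F.map (algebraMap k[X] E))

/-- (Used in the proof.) For some squarefree `D` of degree at most `w` the quadratic twist by `D` of the Jacobian of
`y ^ 2 = f(x)`, the Jacobian of `y ^ 2 = D ^ (2 g + 1) f(x / D)`, has no 2-part over all the fields between
`K` and `L`. -/
def HasGoodTwist {k : Type} [Field k] (K : Type) [Field K] [Algebra k[X] K]
    (L : Type) [Field L] [Algebra K L] [Algebra k[X] L] [IsScalarTower k[X] K L]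
    (w : ℕ) (f : k[X][X]) : Prop :=
  ∃ D : k[X], Squarefree D ∧ D.natDegree ≤ w ∧ NoTwoPartBelow K L (f.scaleRoots D)

/-- The two notations for `J(E)`. -/
theorem div_conv {E : Type} [Field E] {F : E[X]}
    (h : Function.Bijective fun P : Pool.Agent.Y713.Jac.J 2 F E => P ^ 2)
    (P : Pool.Agent.Y160.SL.Jac 2 F E) : ∃! Q : Pool.Agent.Y160.SL.Jac 2 F E, 2 • Q = P := by
  obtain ⟨Q, hQ⟩ := h.2 (Pool.Agent.H428.W.toM P)
  have hQ : Q ^ 2 = Pool.Agent.H428.W.toM P := hQ
  refine ⟨Pool.Agent.H428.W.ofM Q, ?_, ?_⟩
  · apply Pool.Agent.H428.W.toM_inj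
    have h1 := Pool.Agent.H428.W.toM_nsmul (ℓ := 2) (F := F) 2 (Pool.Agent.H428.W.ofM Q)
    rw [Pool.Agent.H428.W.toM_ofM] at h1
    exact h1.trans hQ
  · intro Q' hQ'
    apply Pool.Agent.H428.W.toM_inj
    rw [Pool.Agent.H428.W.toM_ofM]
    apply h.1
    have h1 := Pool.Agent.H428.W.toM_nsmul (ℓ := 2) (F := F) 2 Q'
    have h4 : Pool.Agent.H428.W.toM (2 • Q') = Pool.Agent.H428.W.toM P :=
      congrArg Pool.Agent.H428.W.toM hQ'
    exact (h1.symm.trans h4).trans hQ.symm

/-- The transfer to the forms. -/
theorem forms_of {E R' : Type} [Field E] [CommRing R'] [IsDedekindDomain R']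
    [Algebra R' E] [IsFractionRing R' E] {r : ℕ} {F : Fin r → E[X]} (h2 : (2 : E) ≠ 0)
    (hm : ∀ j, (F j).Monic) (hodd : ∀ j, Odd (F j).natDegree) (hs : ∀ j, (F j).Separable)
    (h : ∀ j, NoTwoPart R' (F j)) : HoldsForForms R' F := by
  intro B S _ _ _ _ _ _ _ _ ι hι1 hι2 I i A n hA
  let i1 : Algebra S R' := ι.toAlgebra
  let i2 : Algebra S E := ((algebraMap R' E).comp ι).toAlgebra
  have i3 : IsScalarTower S R' E := IsScalarTower.of_algebraMap_eq fun _ => rfl
  have i4 : IsScalarTower S B E := IsScalarTower.of_algebraMap_eq fun s => (hι2 s).symm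
  have i5 : Algebra.IsIntegral S R' := ⟨hι1⟩
  have hroot : IsPrimitiveRoot (-1 : E) 2 := by
    refine IsPrimitiveRoot.mk_of_lt _ (by norm_num) (by norm_num) ?_
    intro l h0 h1
    have : l = 1 := by omega
    subst this
    rw [pow_one]
    intro h3
    apply h2
    have h4 : (1 : E) + 1 = 0 := by
      nth_rewrite 1 [← h3]
      ring
    rw [← h4]
    norm_num
  have h1 := Pool.Agent.H428.V.B.transfer (K := B) (S := S) (L := E) (A := R') Nat.prime_two
    (q := fun _ : I => 2) (f := fun l => F (i l))
    (fun l => ⟨-1, ⟨Nat.prime_two.isPrimePow, hroot, hm (i l), hs (i l),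
      Nat.coprime_two_left.2 (hodd (i l))⟩⟩)
    (fun l => Pool.Agent.H428.W.shaTriv_of (fun c m h1 h2 h3 => (h (i l)).2 c m h1 h2 h3))
    (fun l P => div_conv (h (i l)).1 P)
    A n hA
  exact ⟨h1.1, fun ho => h1.2 (Nat.coprime_two_left.2 ho)⟩

/-- The twists, jointly. -/
theorem joint {r : ℕ} {g : Fin r → ℕ} {k : Type} [Field k] (hp : (2 : k) ≠ 0)
    {K : Type} [Field K] [Algebra k[X] K] [IsFractionRing k[X] K] {N : ℕ} {m : k[X]}
    {f₁ : Fin r → k[X][X]} {L : Type} [Field L] [Algebra K L] [Algebra k[X] L]
    [IsScalarTower k[X] K L] {w : ℕ} {f : Fin r → k[X][X]}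
    (hf : ∀ j, f j ∈ Pool.Agent.H859.AL.Fam (g j) N (m ^ 2) (f₁ j)) :
    HasGoodTwists K L w f ↔ ∀ j, HasGoodTwist K L w (f j) := by
  constructor
  · rintro ⟨D, hD, h⟩ j
    exact ⟨D j, (hD j).1, (hD j).2, fun E R _ _ _ _ _ _ _ => (h E R).1 j⟩
  · intro h
    choose D h1 h2 h3 using h
    refine ⟨D, fun j => ⟨h1 j, h2 j⟩, fun E R _ _ _ _ _ _ _ => ?_⟩
    have hno : ∀ j : Fin r,
        NoTwoPart R (((f j).scaleRoots (D j)).map (algebraMap k[X] E)) := fun j => h3 j E R
    refine ⟨hno, ?_⟩
    haveI : IsScalarTower k[X] K E := IntermediateField.isScalarTower _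
    have hD0 : ∀ j, D j ≠ 0 := fun j => (h1 j).ne_zero
    have hmon : ∀ j, ((f j).scaleRoots (D j)).Monic := fun j =>
      (monic_scaleRoots_iff _).2 (hf j).1.mon
    have hinj : Function.Injective (algebraMap k[X] E) := by
      rw [IsScalarTower.algebraMap_eq k[X] K E]
      exact (algebraMap K E).injective.comp (IsFractionRing.injective k[X] K)
    refine forms_of ?_ (fun j => (hmon j).map _) (fun j => ?_) (fun j => ?_) hno
    · have h3 : (2 : k[X]) ≠ 0 := by
        intro h4
        apply hp
        have h5 := congrArg (fun p : k[X] => p.coeff 0) h4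
        simpa using h5
      have h6 : algebraMap k[X] E 2 ≠ 0 := fun h7 => h3 (hinj (h7.trans (map_zero _).symm))
      rwa [map_ofNat] at h6
    · show Odd (((f j).scaleRoots (D j)).map (algebraMap k[X] E)).natDegree
      rw [(hmon j).natDegree_map, natDegree_scaleRoots, (hf j).1.deg]
      exact odd_two_mul_add_one _
    · show (((f j).scaleRoots (D j)).map (algebraMap k[X] E)).Separable
      obtain ⟨q, hq1, hq2⟩ := (hf j).2.1
      obtain ⟨-, -, i3⟩ := Pool.Agent.H859.N874.JM.parts.irk (g j) k K (f j) N q (D j)
        (hf j).1 hq1 hq2 (hD0 j)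
      have hsep := (i3 (hf j).2.2.1.ne_zero).2
      have h8 : ((f j).scaleRoots (D j)).map (algebraMap k[X] E) =
          (((f j).scaleRoots (D j)).map (algebraMap k[X] K)).map (algebraMap K E) := by
        rw [Polynomial.map_map, ← IsScalarTower.algebraMap_eq k[X] K E]
      rw [h8]
      exact hsep.map

/-- Let `k` be a finite field of odd characteristic, `K = k(t)`, `L_0 ⊆ L_1 ⊆ ...` a tower of finite Galois
extensions of `K` of 2-power degrees, `m ≠ 0`, and for `j < r` let `g_j ≥ 1` and `f₁_j` be monic of degree
`2 g_j + 1` over `k[t]` such that the discriminant of `f₁_j` is not divisible by the square of a prime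
divisor of `m`, the primes which are ramified in the tower divide `m`, and `f₁_j` is irreducible modulo
these. The family `F_N` has positive density in the set of all tuples of the same height. For every
sequence `w(N)` which tends to infinity there is a sequence `v(N)` which tends to infinity such that the
proportion of the tuples in `F_N` for which there are squarefree polynomials `D_j` of degree at most `w(N)`
such that for the quadratic twists `J_j` by `D_j` of the Jacobians of `y ^ 2 = f_j(x)` and ALL the fields `E`
between `K` and `L_(v(N))` multiplication by two is bijective on all `J_j(E)`, the 2-primary parts of the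
Tate-Shafarevich groups of all `J_j` over `E` are zero, and the statements of `HoldsForForms` are true for
ALL the fields `B` over which `E` is finite and Galois, and ALL the abelian varieties `A` over `B` which are
factors of products of the `J_j` over `E`, tends to `1`. -/
theorem result (r : ℕ) (g : Fin r → ℕ) (hg : ∀ j, 1 ≤ g j)
    (k : Type) [Field k] [Finite k] (hp : (2 : k) ≠ 0)
    (K : Type) [Field K] [Algebra k[X] K] [IsFractionRing k[X] K]
    (Ω : Type) [Field Ω] [Algebra K Ω] [Algebra k[X] Ω] [IsScalarTower k[X] K Ω]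
    (L : ℕ → IntermediateField K Ω) (hL : IsTower K Ω L) (m : k[X]) (hm : m ≠ 0)
    (f₁ : Fin r → k[X][X]) (hf₁ : ∀ j, (f₁ j).Monic) (hd₁ : ∀ j, (f₁ j).natDegree = 2 * g j + 1)
    (hdisc : ∀ (j : Fin r) (P : k[X]), Irreducible P → P ∣ m → ¬ P ^ 2 ∣ (f₁ j).discr)
    (hram : ∀ (i : ℕ) (P : k[X]), Irreducible P →
      Unramified (integralClosure k[X] (L i)) P ∨ (P ∣ m ∧ ∀ j, IrreducibleMod (f₁ j) P)) :
    (∀ N : ℕ, (AllTuples k g N).Finite) ∧
    (∃ c : ℝ, 0 < c ∧ ∀ᶠ N : ℕ in atTop, 0 < (Tuples g m f₁ N).ncard ∧
      c * ((AllTuples k g N).ncard : ℝ) ≤ ((Tuples g m f₁ N).ncard : ℝ)) ∧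
    ∀ w : ℕ → ℕ, Tendsto w atTop atTop → ∃ v : ℕ → ℕ, Tendsto v atTop atTop ∧
      Tendsto (fun N : ℕ =>
        ({f ∈ Tuples g m f₁ N | HasGoodTwists K (L (v N)) (w N) f}.ncard : ℝ) /
          ((Tuples g m f₁ N).ncard : ℝ)) atTop (𝓝 1) := by
  have hall : ∀ g' N, Polynomials k g' N =
      {f : k[X][X] | Pool.Agent.H859.PJ.HtA g' (2 * N) f} := by
    intro g' N
    ext f
    exact ⟨fun h => ⟨h.1, h.2.1, h.2.2⟩, fun h => ⟨h.mon, h.deg, h.ht⟩⟩
  have hfam : ∀ j N, Family (g j) m (f₁ j) N =
      Pool.Agent.H859.AL.Fam (g j) N (m ^ 2) (f₁ j) := by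
    intro j N
    ext f
    constructor
    · rintro ⟨h1, h2, h3, h4⟩
      exact ⟨⟨h1.1, h1.2.1, h1.2.2⟩, (Pool.Agent.H859.AL.irrInf_iff N f).2 h2,
        (Pool.Agent.H859.AL.sq_discr h1.1 h1.2.1).2 h3, h4⟩
    · rintro ⟨h1, h2, h3, h4⟩
      exact ⟨⟨h1.mon, h1.deg, h1.ht⟩, (Pool.Agent.H859.AL.irrInf_iff N f).1 h2,
        (Pool.Agent.H859.AL.sq_discr h1.mon h1.deg).1 h3, h4⟩
  have hGM := fun j => Pool.Agent.H859.TWC.goodM_sq hm (hf₁ j) (hd₁ j) (hdisc j)
  have hfin : ∀ g' N, (Polynomials k g' N).Finite := fun g' N => by
    rw [hall]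
    exact (Pool.Agent.H859.N415.PJMAIN.ht_card (k := k) g' (2 * N)).1
  have hfinF : ∀ j N, (Family (g j) m (f₁ j) N).Finite := fun j N =>
    (hfin (g j) N).subset fun f hf => hf.1
  have hq : (0 : ℝ) < Nat.card k := by exact_mod_cast Nat.card_pos
  -- the density for each `j`
  have hpos : ∀ j, ∃ c : ℝ, 0 < c ∧ ∀ᶠ N : ℕ in atTop, 0 < (Family (g j) m (f₁ j) N).ncard ∧
      c * ((Polynomials k (g j) N).ncard : ℝ) ≤ ((Family (g j) m (f₁ j) N).ncard : ℝ) := by
    intro j
    obtain ⟨c, hc, N₀, hN₀⟩ := Pool.Agent.H859.AL.fam_pos (hg j) hp (hGM j)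
    refine ⟨c / (Nat.card k : ℝ) ^ (2 * g j + 1), by positivity, ?_⟩
    filter_upwards [eventually_ge_atTop N₀] with N hN
    obtain ⟨hF, hle⟩ := hN₀ N hN
    rw [hfam]
    have h1 : (0 : ℝ) < ((Pool.Agent.H859.AL.Fam (g j) N (m ^ 2) (f₁ j)).ncard : ℝ) :=
      lt_of_lt_of_le (by positivity) hle
    refine ⟨by exact_mod_cast h1, ?_⟩
    have h2 : ((Polynomials k (g j) N).ncard : ℝ) ≤
        (Nat.card k : ℝ) ^ (2 * N * Pool.Agent.H859.PJ.ddA (g j)) *
          (Nat.card k : ℝ) ^ (2 * g j + 1) := by
      rw [hall, ← pow_add]
      exact_mod_cast (Pool.Agent.H859.N415.PJMAIN.ht_card (k := k) (g j) (2 * N)).2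
    calc c / (Nat.card k : ℝ) ^ (2 * g j + 1) * ((Polynomials k (g j) N).ncard : ℝ)
        ≤ c / (Nat.card k : ℝ) ^ (2 * g j + 1) *
          ((Nat.card k : ℝ) ^ (2 * N * Pool.Agent.H859.PJ.ddA (g j)) *
            (Nat.card k : ℝ) ^ (2 * g j + 1)) := by gcongr
      _ = c * (Nat.card k : ℝ) ^ (2 * N * Pool.Agent.H859.PJ.ddA (g j)) := by field_simp
      _ ≤ _ := hle
  have hAll := fun N => Pool.Agent.H859.AL.ncard_tuples (fun j : Fin r => Polynomials k (g j) N)
    fun j => hfin (g j) N
  have hTup := fun N => Pool.Agent.H859.AL.ncard_tuples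
    (fun j : Fin r => Family (g j) m (f₁ j) N) fun j => hfinF j N
  refine ⟨fun N => (hAll N).1, ?_, fun w hw => ?_⟩
  · choose c hc hcN using hpos
    refine ⟨∏ j, c j, Finset.prod_pos fun j _ => hc j, ?_⟩
    filter_upwards [eventually_all.2 hcN] with N hN
    have e1 : (Tuples g m f₁ N).ncard = ∏ j, (Family (g j) m (f₁ j) N).ncard := (hTup N).2
    have e2 : (AllTuples k g N).ncard = ∏ j, (Polynomials k (g j) N).ncard := (hAll N).2
    rw [e1, e2]
    refine ⟨Finset.prod_pos fun j _ => (hN j).1, ?_⟩
    rw [Nat.cast_prod, Nat.cast_prod, ← Finset.prod_mul_distrib]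
    exact Finset.prod_le_prod (fun j _ => mul_nonneg (hc j).le (Nat.cast_nonneg _))
      fun j _ => (hN j).2
  -- the exceptional sets
  have hlev := fun j => Pool.Agent.H859.AL.level (hg j) hp K hm (hf₁ j) (hd₁ j) (hdisc j)
  choose C hC using hlev
  have hs : ∀ s : ℕ, ∀ᶠ N : ℕ in atTop, ∀ j : Fin r,
      ({f ∈ Family (g j) m (f₁ j) N | ¬ HasGoodTwist K (L s) (w N) f}.ncard : ℝ) ≤
        C j * (1 - 1 / (32 * (g j))) ^ s * ((Family (g j) m (f₁ j) N).ncard : ℝ) := by
    intro s
    rw [eventually_all]
    intro j
    haveI := hL.finite s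
    haveI := hL.galois s
    haveI : IsScalarTower k[X] K (L s) := IntermediateField.isScalarTower _
    obtain ⟨n, hn⟩ := hL.degree s
    have h1 := hC j (L s) n hn (fun P hP => by
      rcases hram s P hP with h | h
      · exact Or.inl h
      · exact Or.inr ⟨h.1, h.2 j⟩) w hw s
    filter_upwards [h1] with N hN
    rw [hfam]
    exact hN
  obtain ⟨v, hv, hvb⟩ := Pool.Agent.H859.AL.diag _ hs
  refine ⟨v, hv, ?_⟩
  have heq : ∀ N : ℕ, {f ∈ Tuples g m f₁ N | HasGoodTwists K (L (v N)) (w N) f} =
      {f ∈ Tuples g m f₁ N | ∀ j, HasGoodTwist K (L (v N)) (w N) (f j)} := by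
    intro N
    ext f
    constructor
    · rintro ⟨h1, h2⟩
      exact ⟨h1, (joint (g := g) (N := N) (m := m) (f₁ := f₁) hp fun j => by
        have := h1 j
        rwa [hfam] at this).1 h2⟩
    · rintro ⟨h1, h2⟩
      exact ⟨h1, (joint (g := g) (N := N) (m := m) (f₁ := f₁) hp fun j => by
        have := h1 j
        rwa [hfam] at this).2 h2⟩
  simp only [heq]
  refine Pool.Agent.H859.AL.tuples_one (fun j N => Family (g j) m (f₁ j) N) hfinF
    (fun j N f => HasGoodTwist K (L (v N)) (w N) f) fun j => ?_
  have hg' : (1 : ℝ) ≤ g j := by exact_mod_cast hg j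
  have hρ1 : (1 : ℝ) / (32 * g j) ≤ 1 / 32 := by
    apply one_div_le_one_div_of_le (by norm_num)
    linarith
  have hρ2 : (0 : ℝ) < 1 / (32 * g j) := by positivity
  obtain ⟨c, hc, hcN⟩ := hpos j
  refine Pool.Agent.H859.AL.tends_one (C := |C j|) (ρ := 1 - 1 / (32 * g j)) _ (hfinF j)
    (hcN.mono fun N hN => hN.1) _ (by linarith) (by linarith) fun s => ?_
  filter_upwards [hvb, hv.eventually_ge_atTop s] with N hN hNs
  refine (hN j).trans ?_
  have h1 : (1 - 1 / (32 * (g j : ℝ))) ^ v N ≤ (1 - 1 / (32 * (g j : ℝ))) ^ s :=
    pow_le_pow_of_le_one (by linarith) (by linarith) hNs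
  have h2 : (0 : ℝ) ≤ (1 - 1 / (32 * (g j : ℝ))) ^ v N := pow_nonneg (by linarith) _
  have h3 : C j * (1 - 1 / (32 * (g j : ℝ))) ^ v N ≤ |C j| * (1 - 1 / (32 * (g j : ℝ))) ^ s :=
    mul_le_mul (le_abs_self (C j)) h1 h2 (abs_nonneg (C j))
  exact mul_le_mul_of_nonneg_right h3 (Nat.cast_nonneg _)

end Pool.Agent.Results.MP_72e2e6_nt.HundredPercentAfterTwist
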