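import Pool.Agent.H467.UM.Sim
import Pool.Agent.H467.UM.Cnt

/-!
# Quadratic twists of a given elliptic curve of rank zero over infinitely many 2-extensions at once

Let `k` be any finite field of characteristic at least five, with `q` elements, and `K = k(t)`. Let
`E : y ^ 2 = x ^ 3 + a x + b` be an elliptic curve over `K` with polynomials `a`, `b`, without points
of order two over `K`, and such that there is an irreducible polynomial `P` which does not divide `a` and
divides `4 a ^ 3 + 27 b ^ 2` to an odd power (multiplicative reduction at `P`, with odd exponent of the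
discriminant).

For a finite set `J` of primes of `k[t]` let `C(E, J)` be the class of all the finite Galois extensions
`M` of `K` of 2-power degree in which the place at infinity, the primes dividing `4 a ^ 3 + 27 b ^ 2` and
the primes in `J` split completely and in which all the primes are unramified modulo which
`x ^ 3 + a x + b` has a zero. (So `M` may be ramified at all the other primes; their density is `1 / 3`
or `2 / 3`. For example `C(E, J)` contains the fields `K(√d)`, `d` monic of even degree, a product of
such primes and a square modulo the primes in `J` and modulo the divisors of `4 a ^ 3 + 27 b ^ 2`, their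
composita, and many non-abelian extensions. The class is closed under composita.)

Theorem. There are a finite set `J` of primes and a positive constant `c` such that for many monic
squarefree polynomials `D` the quadratic twist `E ^ D : y ^ 2 = x ^ 3 + a D ^ 2 x + b D ^ 3` has, over
ALL the fields `M` in `C(E, J)`, a finite group of rational points, of odd order, and trivial 2-primary
part of the Tate-Shafarevich group: if `N_d` is the number of these `D` of degree `d` then the sum of
the `N_d / q ^ d` for `d ≤ n` is at least `c n ^ (1 / 3)` for all large `n`, and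
`N_d ≥ c q ^ d d ^ (- 2 / 3)` for infinitely many `d`.

By the known theorem of Artin, Tate and Milne the conjecture of Birch and Swinnerton-Dyer holds for
these `E ^ D` over all the fields `M` in `C(E, J)`, both the rank and the order of vanishing being `0`. In
particular no point of infinite order of `E ^ D` appears in the compositum of all these `M`, an infinite
pro-2 extension of `K`.

The proof: for the twists `D` of project MR (`MP_48b749_nt.SimultaneousTwists`) the 2-Selmer group over
`K` is trivial, even if nothing is required at the primes modulo which the cubic polynomial has no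
root. The 2-Selmer group over `M`, in the explicit form, is a subgroup of the cubic extension of `M`
modulo squares, stable under the Galois group of `M` over `K`, and its invariant part comes from the
Selmer group over `K`; as the Galois group is a 2-group it is zero.

Projects MR and UM: helper467, with parts by helpers 548, 627, 591, 168, 734, 684, 944, 215, 582, 580,
721, 788; see `departures/helper467.md`.
-/

set_option autoImplicit false
set_option linter.all false

namespace Pool.Agent.Results.MP_72e2e6_nt.TwistsOverTwoExtensions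

open Polynomial Filter IsDedekindDomain Pool.Agent.TH115.GD
open scoped Classical

/-- The curve `y ^ 2 = x ^ 3 + a x + b` over an extension `F` of `k(t)`. -/
noncomputable def curve {k : Type} [Field k] (F : Type) [Field F] [Algebra k[X] F] (a b : k[X]) :
    WeierstrassCurve F :=
  ⟨0, 0, 0, algebraMap k[X] F a, algebraMap k[X] F b⟩

/-- The hypotheses: the curve `y ^ 2 = x ^ 3 + a x + b` has no points of order two over `k(t)`, and
there is a prime of multiplicative reduction at which the discriminant has odd valuation. -/
structure IsGood {k : Type} [Field k] (a b : k[X]) : Prop where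
  no_root : ∀ c : k[X], c ^ 3 + a * c + b ≠ 0
  odd : ∃ (P : k[X]) (n : ℕ), Irreducible P ∧ ¬ P ∣ a ∧ Odd n ∧ P ^ n ∣ 4 * a ^ 3 + 27 * b ^ 2 ∧
    ¬ P ^ (n + 1) ∣ 4 * a ^ 3 + 27 * b ^ 2

/-- The finite Galois extension `M` of `K = k(t)`, with the integral closure `R` of `k[t]` in `M`, is
in the class `C(E, J)`, except for the condition on the degree: `M` can be embedded in the completion of
`K` at infinity and in the completions of `K` at the primes dividing `4 a ^ 3 + 27 b ^ 2` and at the
primes in `J`, and the primes modulo which `x ^ 3 + a x + b` has a zero are unramified in `M`. -/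
structure InClass {k : Type} [Field k] (K M R : Type) [Field K] [Algebra k[X] K]
    [IsFractionRing k[X] K] [Field M] [Algebra K M] [CommRing R] [IsDedekindDomain R]
    [Algebra k[X] R] (a b : k[X]) (J : Finset k[X]) : Prop where
  infinity : Nonempty (M →ₐ[K] CompInf k K)
  split : ∀ v : HeightOneSpectrum k[X],
    (4 * a ^ 3 + 27 * b ^ 2 ∈ v.asIdeal ∨ ∃ Q ∈ J, Q ∈ v.asIdeal) →
    Nonempty (M →ₐ[K] v.adicCompletion K)
  unramified : ∀ P : k[X], Irreducible P → (∃ c : k[X], P ∣ c ^ 3 + a * c + b) →
    ∀ w : HeightOneSpectrum R, algebraMap k[X] R P ∈ w.asIdeal →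
      algebraMap k[X] R P ∉ w.asIdeal ^ 2

/-- The completions of `M`: those at the maximal ideals of the integral closure `R` of `k[t]`, and those
at the places over infinity. As infinity splits completely in `M`, the latter are given by the
embeddings of `M` in the completion of `K` at infinity. -/
inductive IsCompletion (k K M R : Type) [Field k] [Field K] [Algebra k[X] K]
    [IsFractionRing k[X] K] [Field M] [Algebra K M] [CommRing R] [IsDedekindDomain R] [Algebra R M]
    [IsFractionRing R M] : ∀ (F : Type) [Field F] [Algebra M F], Prop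
  | finite (w : HeightOneSpectrum R) : IsCompletion k K M R (w.adicCompletion M)
  | infinite (ι : M →ₐ[K] CompInf k K) :
      @IsCompletion k K M R _ _ _ _ _ _ _ _ _ _ (CompInf k K) _ (ι : M →+* CompInf k K).toAlgebra

/-- The group of the `M`-rational points is finite, of odd order, and the 2-primary part of the
Tate-Shafarevich group of `W` over `M` is trivial: a continuous cocycle of the absolute Galois group of
`M` whose class is killed by a power of two and which is a coboundary over all the completions of `M` is
a coboundary. -/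
def RankZero (k K M R : Type) [Field k] [Field K] [Algebra k[X] K] [IsFractionRing k[X] K]
    [Field M] [Algebra K M] [CommRing R] [IsDedekindDomain R] [Algebra R M] [IsFractionRing R M]
    (W : WeierstrassCurve M) : Prop :=
  Finite (Pt W M) ∧ Odd (Nat.card (Pt W M)) ∧
  ∀ f : (Sep M ≃ₐ[M] Sep M) → Pt W (Sep M), IsCoc W f →
    (∀ (F : Type) [Field F] [Algebra M F], IsCompletion k K M R F → LocTriv W F (Sep F) f) →
    (∃ (n : ℕ) (Q : Pt W (Sep M)), ∀ σ, 2 ^ n • f σ = act W (rs M σ) Q - Q) →
    ∃ Q : Pt W (Sep M), ∀ σ, f σ = act W (rs M σ) Q - Q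

/-- The monic squarefree polynomials `D` of degree `d` for which the quadratic twist
`y ^ 2 = x ^ 3 + a D ^ 2 x + b D ^ 3` has these properties over all the fields in `C(E, J)`. -/
def Twists {k : Type} [Field k] (K : Type) [Field K] [Algebra k[X] K] [IsFractionRing k[X] K]
    (a b : k[X]) (J : Finset k[X]) (d : ℕ) : Set k[X] :=
  {D | D.Monic ∧ Squarefree D ∧ D.natDegree = d ∧
    ∀ (M : Type) [Field M] [Algebra K M] [Algebra k[X] M] [IsScalarTower k[X] K M]
      [FiniteDimensional K M] [IsGalois K M] (R : Type) [CommRing R] [IsDedekindDomain R]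
      [Algebra R M] [IsFractionRing R M] [Algebra k[X] R] [IsScalarTower k[X] R M]
      [IsIntegralClosure R k[X] M] (n : ℕ), Module.finrank K M = 2 ^ n →
      InClass K M R a b J → RankZero k K M R (curve M (a * D ^ 2) (b * D ^ 3))}

/-! ### Comparison with the helper files -/

theorem good_of {k K M R : Type} [Field k] [Field K] [Algebra k[X] K] [IsFractionRing k[X] K]
    [Field M] [Algebra K M] [CommRing R] [IsDedekindDomain R] [Algebra R M] [IsFractionRing R M]
    {W : WeierstrassCurve M} (h : Pool.Agent.H467.UM.GoodM k K M R W) : RankZero k K M R W := by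
  obtain ⟨h1, h2, h3⟩ := h
  refine ⟨h1, h2, fun f hf hl hn => h3 f hf (fun E _ _ hE => ?_) hn⟩
  cases hE with
  | fin w => exact hl _ (IsCompletion.finite w)
  | inf ι => exact @hl (CompInf k K) _ (ι : M →+* CompInf k K).toAlgebra (IsCompletion.infinite ι)

/-- For every finite field `k` of characteristic at least five and every curve as above there are a
finite set `J` of primes of good reduction and a positive constant `c` such that, with `N_d` the number of
the monic squarefree `D` of degree `d` for which the twist by `D` has finitely many rational points, of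
odd number, and trivial 2-primary part of the Tate-Shafarevich group over all the fields in the class
`C(E, J)`, the sum of `N_d / q ^ d` for `d ≤ n` is at least `c n ^ (1 / 3)` for all large `n`, and
`N_d ≥ c q ^ d d ^ (- 2 / 3)` for infinitely many `d`. -/
theorem result (k : Type) [Field k] [Finite k] (h6 : (6 : k) ≠ 0) (K : Type) [Field K]
    [Algebra k[X] K] [IsFractionRing k[X] K] (a b : k[X]) (h : IsGood a b) :
    ∃ J : Finset k[X], (∀ Q ∈ J, Q.Monic ∧ Irreducible Q ∧ ¬ Q ∣ 4 * a ^ 3 + 27 * b ^ 2) ∧
      (∀ d, (Twists K a b J d).Finite) ∧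
      ∃ c : ℝ, 0 < c ∧
        (∀ᶠ n : ℕ in atTop, c * (n : ℝ) ^ ((1 : ℝ) / 3) ≤
          ∑ d ∈ Finset.range (n + 1), ((Twists K a b J d).ncard : ℝ) / (Nat.card k : ℝ) ^ d) ∧
        (∃ᶠ d : ℕ in atTop, c * (Nat.card k : ℝ) ^ d * (d : ℝ) ^ (-(2 : ℝ) / 3) ≤
          ((Twists K a b J d).ncard : ℝ)) := by
  obtain ⟨P, n₀, hP, hPa, hn₀, hPn, hPn'⟩ := h.odd
  have hdat : Pool.Agent.H467.MR.Dat K (fun _ : Fin 1 => a) (fun _ => b) (fun _ => P) := by
    refine ⟨fun _ => Pool.Agent.H467.UM.Cnt.irr K h.no_root, fun _ => hP, fun _ => hPa, fun _ => ?_,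
      fun i j hij => absurd (Subsingleton.elim i j) hij⟩
    obtain ⟨r, rfl⟩ := hn₀
    obtain ⟨c, hc⟩ := hPn
    refine ⟨r, c, hc, fun hd => hPn' ?_⟩
    obtain ⟨e, rfl⟩ := hd
    exact ⟨e, by rw [hc]; ring⟩
  obtain ⟨J, hJ, c, hc, m₀, hcnt⟩ := Pool.Agent.H467.UM.sim2 K h6 hdat
  refine ⟨J 0, fun Q hQ => ⟨(hJ 0 Q hQ).1, (hJ 0 Q hQ).2.1, (hJ 0 Q hQ).2.2.2⟩, ?_, ?_⟩
  · intro d
    exact (Pool.Agent.H467.UM.Cnt.fin_deg d).subset fun D hD => hD.2.2.1.le
  have hsub : ∀ D : k[X], (D.Monic ∧ (Squarefree D ∧ ∀ i : Fin 1,
      Pool.Agent.H467.UM.UpTw K (J i) a b D)) → D ∈ Twists K a b (J 0) D.natDegree := by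
    rintro D ⟨hDm, hDsq, hup⟩
    refine ⟨hDm, hDsq, rfl, ?_⟩
    intro M _ _ _ _ _ _ R _ _ _ _ _ _ _ n hn hM
    refine good_of (hup 0 M R n hn ⟨hM.infinity, fun Q hQm hQ hQd => hM.split _ ?_,
      fun Q hQm hQ _ _ hQr w hw => ?_⟩)
    · rcases hQd with h1 | h1
      · left
        exact Ideal.mem_span_singleton.2 h1
      · exact Or.inr ⟨Q, h1, Ideal.mem_span_singleton.2 dvd_rfl⟩
    · exact Pool.Agent.H467.UM.Cnt.val_iff Q w hw (hM.unramified Q hQ hQr w hw)
  have key := Pool.Agent.H467.UM.Cnt.fin_sum (k := k) {D : k[X] | D.Monic ∧ (Squarefree D ∧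
    ∀ i : Fin 1, Pool.Agent.H467.UM.UpTw K (J i) a b D)} (fun d => Twists K a b (J 0) d)
    (fun d => (Pool.Agent.H467.UM.Cnt.fin_deg d).subset fun D hD => hD.2.2.1.le) hsub
    (δ := (1 : ℝ) / 3) (by norm_num) (by norm_num) hc (n₀ := m₀) (fun n hn => by
      have h1 := (hcnt n hn).2
      rw [pow_one] at h1
      have e1 : {D : k[X] | D.Monic ∧ D.natDegree ≤ n ∧ (Squarefree D ∧
          ∀ i : Fin 1, Pool.Agent.H467.UM.UpTw K (J i) a b D)} =
          {D : k[X] | D ∈ {D : k[X] | D.Monic ∧ (Squarefree D ∧
            ∀ i : Fin 1, Pool.Agent.H467.UM.UpTw K (J i) a b D)} ∧ D.natDegree ≤ n} := by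
        ext D
        constructor
        · rintro ⟨a1, a2, a3⟩
          exact ⟨⟨a1, a3⟩, a2⟩
        · rintro ⟨⟨a1, a3⟩, a2⟩
          exact ⟨a1, a2, a3⟩
      rw [e1] at h1
      exact h1)
  obtain ⟨c', hc', k1, k2⟩ := key
  refine ⟨c', hc', k1, ?_⟩
  have e : -(2 : ℝ) / 3 = (1 : ℝ) / 3 - 1 := by norm_num
  rw [e]
  exact k2

end Pool.Agent.Results.MP_72e2e6_nt.TwistsOverTwoExtensions
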